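import Mathlib

set_option autoImplicit false

open Set TopologicalSpace

namespace Pool.Agent.Helper65.Roy

/-- The canonical finite set with index `e`: the positions of the binary digits `1` of `e`. -/
def canonFin (e : ℕ) : Set ℕ := {x | e.testBit x = true}

/-- Enumeration reducibility `A ≤_e B`. -/
def EnumRed (A B : Set ℕ) : Prop :=
  ∃ Φ : Set ℕ, REPred (fun k : ℕ => k ∈ Φ) ∧
    ∀ n, n ∈ A ↔ ∃ e, Nat.pair n e ∈ Φ ∧ canonFin e ⊆ B

/-- Enumeration equivalence. -/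
def EnumEquiv (A B : Set ℕ) : Prop := EnumRed A B ∧ EnumRed B A

/-- The `e`-degree of `A`: its class under enumeration equivalence. -/
def eDeg (A : Set ℕ) : Set (Set ℕ) := {B | EnumEquiv B A}

/-- An `e`-degree is a class of enumeration equivalence. -/
def IsEDegree (d : Set (Set ℕ)) : Prop := ∃ A, d = eDeg A

/-- The join `A ⊕ B`. -/
def join (A B : Set ℕ) : Set ℕ := {k | (∃ n ∈ A, k = 2 * n) ∨ ∃ n ∈ B, k = 2 * n + 1}

/-- The characteristic function of `Y` as an oracle. -/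
noncomputable def charFn (Y : Set ℕ) : ℕ →. ℕ :=
  open Classical in fun n => Part.some (if n ∈ Y then 1 else 0)

/-- `A` is c.e. in `Y`: it is the domain of a partial function recursive in `Y`. -/
def CEIn (Y A : Set ℕ) : Prop :=
  ∃ h : ℕ →. ℕ, Nat.RecursiveIn {charFn Y} h ∧ ∀ n, n ∈ A ↔ (h n).Dom

/-- The set `ω` with two extra symbols. -/
inductive OmegaT : Type
  | bot0 : OmegaT
  | bot1 : OmegaT
  | nat : ℕ → OmegaT

/-- The half graph of `f`. -/
def HalfGraph (f : ℕ → OmegaT) : Set ℕ :=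
  {k | ∃ n m, k = 2 * Nat.pair n m ∧ f n = OmegaT.nat (2 * m)} ∪
  {k | ∃ n m, k = 2 * Nat.pair n m + 1 ∧ ∃ j, f n = OmegaT.nat j ∧ 2 * m ≤ j}

/-- The upper half graph of `f`. -/
def HalfGraphPlus (f : ℕ → OmegaT) : Set ℕ :=
  {k | ∃ n m, k = 2 * Nat.pair n m ∧
    (f n = OmegaT.bot0 ∨ ∃ j, f n = OmegaT.nat j ∧ j ≤ 2 * m)} ∪
  {k | ∃ n m, k = 2 * Nat.pair n m + 1 ∧
    (f n = OmegaT.bot1 ∨ ∃ j, f n = OmegaT.nat j ∧ 2 * m ≤ j)}

/-- `f` is half-c.e. relative to `Y`. -/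
def HalfCE (Y : Set ℕ) (f : ℕ → OmegaT) : Prop := CEIn Y (HalfGraph f)

/-- `f` is computably dominated relative to `Y`. -/
def CompDominated (Y : Set ℕ) (f : ℕ → OmegaT) : Prop :=
  ∃ g : ℕ →. ℕ, Nat.RecursiveIn {charFn Y} g ∧
    ∀ n k, f n = OmegaT.nat k → ∃ b, b ∈ g n ∧ k < b

/-- Roy halfgraph-above `e`-degrees. -/
def RoyHalfgraphAbove (d : Set (Set ℕ)) : Prop :=
  IsEDegree d ∧ ∃ (Y : Set ℕ) (f : ℕ → OmegaT), HalfCE Y f ∧ CompDominated Y f ∧
    join (join Y Yᶜ) (HalfGraphPlus f) ∈ d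

/-- The coded neighbourhood filter of a point. -/
def nbhdFilter {X : Type*} (β : ℕ → Set X) (x : X) : Set ℕ := {e | x ∈ β e}

/-- `d` is a point degree of the space with enumerated base `β`. -/
def IsPointDegree {X : Type*} (β : ℕ → Set X) (d : Set (Set ℕ)) : Prop :=
  ∃ x : X, d = eDeg (nbhdFilter β x)

/-- The topology contains a coarser metrizable topology. -/
def Submetrizable (X : Type*) [t : TopologicalSpace X] : Prop :=
  ∃ t' : TopologicalSpace X, t ≤ t' ∧ @MetrizableSpace X t'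

end Pool.Agent.Helper65.Roy
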