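import Pool.Agent.Helper65.Roy.Defs

set_option autoImplicit false

open Set TopologicalSpace Topology

namespace Pool.Agent.Helper65.Roy

/-! ### Fusion -/

section Fusion

variable {P : Type*}

/-- every finite string extending `s` below `n` is met by `R` -/
def DenseAbove (R : Set (ℕ → P)) (n : ℕ) (s : ℕ → P) : Prop :=
  ∀ τ : ℕ → P, (∀ j < n, τ j = s j) → ∀ K, ∃ z ∈ R, ∀ j < K, z j = τ j

def Decides (R : Set (ℕ → P)) (n : ℕ) (s : ℕ → P) : Prop :=
  (∀ x ∈ R, ¬ ∀ j < n, x j = s j) ∨ DenseAbove R n s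

lemma DenseAbove.mono {R : Set (ℕ → P)} {n n' : ℕ} {s s' : ℕ → P} (h : DenseAbove R n s)
    (hn : n ≤ n') (hs : ∀ j < n, s' j = s j) : DenseAbove R n' s' := by
  intro τ hτ K
  exact h τ (fun j hj => (hτ j (lt_of_lt_of_le hj hn)).trans (hs j hj)) K

lemma Decides.mono {R : Set (ℕ → P)} {n n' : ℕ} {s s' : ℕ → P} (h : Decides R n s)
    (hn : n ≤ n') (hs : ∀ j < n, s' j = s j) : Decides R n' s' := by
  rcases h with h | h
  · left
    intro x hx hall
    exact h x hx (fun j hj => (hall j (lt_of_lt_of_le hj hn)).trans (hs j hj))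
  · exact Or.inr (h.mono hn hs)

/-- `glue n s ρ` is `s` below `n` and `ρ` from `n` on -/
def glue (n : ℕ) (s ρ : ℕ → P) : ℕ → P := fun j => if j < n then s j else ρ j

lemma decide_step {W : Type*} (S : Finset W) (R : Set (ℕ → P)) (n : ℕ) (s : W → ℕ → P)
    (ρ₀ : ℕ → P) :
    ∃ n' ≥ n, ∃ ρ : ℕ → P, ∀ w ∈ S, Decides R n' (glue n (s w) ρ) := by
  classical
  induction S using Finset.induction_on with
  | empty => exact ⟨n, le_refl _, ρ₀, by simp⟩
  | insert w S _ ih =>
    obtain ⟨n', hn', ρ, hρ⟩ := ih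
    by_cases hd : DenseAbove R n' (glue n (s w) ρ)
    · refine ⟨n', hn', ρ, ?_⟩
      intro w' hw'
      rcases Finset.mem_insert.1 hw' with h | h
      · subst h; exact Or.inr hd
      · exact hρ w' h
    · unfold DenseAbove at hd
      push Not at hd
      obtain ⟨τ, hτ, K, hK⟩ := hd
      refine ⟨max n' K, le_trans hn' (le_max_left _ _), glue n' ρ τ, ?_⟩
      have hagree : ∀ w' : W, ∀ j < n', glue n (s w') (glue n' ρ τ) j = glue n (s w') ρ j := by
        intro w' j hj
        simp only [glue]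
        split_ifs <;> rfl
      intro w' hw'
      rcases Finset.mem_insert.1 hw' with h | h
      · subst h
        left
        intro x hx hall
        obtain ⟨j, hj, hne⟩ := hK x hx
        apply hne
        have h1 := hall j (lt_of_lt_of_le hj (le_max_right _ _))
        rw [h1]
        by_cases hjn : j < n'
        · rw [hagree w' j hjn, hτ j hjn]
        · have : ¬ j < n := fun h => hjn (lt_of_lt_of_le h hn')
          simp [glue, this, hjn]
      · exact (hρ w' h).mono (le_max_left _ _) (hagree w')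


/-- extend a finite 0-1 sequence by `false` -/
def extB (k : ℕ) (w : Fin k → Bool) : ℕ → Bool := fun i => if h : i < k then w ⟨i, h⟩ else false

lemma extB_restrict (k : ℕ) (w : ℕ → Bool) (i : ℕ) (hi : i < k) :
    extB k (fun i : Fin k => w i) i = w i := by
  simp [extB, hi]

theorem fusion (a b : P) (hab : a ≠ b) (R : ℕ → Set (ℕ → P)) (hR : ∀ x, ∃ i, x ∈ R i) :
    ∃ (i n : ℕ) (x y : ℕ → P), DenseAbove (R i) n x ∧ x ∈ R i ∧ y ∈ R i ∧
      (∀ j < n, y j = x j) ∧ (∃ j, x j ≠ y j) ∧
      ∀ j, x j ≠ y j → (x j = a ∨ x j = b) ∧ (y j = a ∨ y j = b) := by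
  classical
  have hstep : ∀ (k : ℕ) (st : ℕ × ((ℕ → Bool) → ℕ → P)), ∃ q : ℕ × (ℕ → P), st.1 ≤ q.1 ∧
      ∀ w : Fin k → Bool, Decides (R k) q.1 (glue st.1 (st.2 (extB k w)) q.2) := by
    intro k st
    obtain ⟨n', hn', ρ, hρ⟩ := decide_step (W := Fin k → Bool) Finset.univ (R k) st.1
      (fun w => st.2 (extB k w)) (fun _ => a)
    exact ⟨(n', ρ), hn', fun w => hρ w (Finset.mem_univ _)⟩
  choose q hq1 hq2 using hstep
  let upd : ℕ → (ℕ × ((ℕ → Bool) → ℕ → P)) → (ℕ × ((ℕ → Bool) → ℕ → P)) := fun k st =>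
    ((q k st).1 + 1, fun w j => if j < st.1 then st.2 w j else
      if j < (q k st).1 then (q k st).2 j else if w k then b else a)
  let S : ℕ → (ℕ × ((ℕ → Bool) → ℕ → P)) := fun k => Nat.rec (0, fun _ _ => a) upd k
  have hS : ∀ k, S (k + 1) = upd k (S k) := fun k => rfl
  have hn : ∀ k, (S (k + 1)).1 = (q k (S k)).1 + 1 := fun k => rfl
  have he : ∀ k w j, (S (k + 1)).2 w j = if j < (S k).1 then (S k).2 w j else
      if j < (q k (S k)).1 then (q k (S k)).2 j else if w k then b else a := fun k w j => rfl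
  have hmono : ∀ k, (S k).1 < (S (k + 1)).1 := by
    intro k
    rw [hn]
    exact Nat.lt_succ_of_le (hq1 k (S k))
  have hge : ∀ k, k ≤ (S k).1 := by
    intro k
    induction k with
    | zero => exact Nat.zero_le _
    | succ k ih => exact lt_of_le_of_lt ih (hmono k)
  have hsm : StrictMono (fun k => (S k).1) := strictMono_nat_of_lt_succ hmono
  have hcoh1 : ∀ k w j, j < (S k).1 → (S (k + 1)).2 w j = (S k).2 w j := by
    intro k w j hj
    rw [he, if_pos hj]
  have hcoh : ∀ k k' w j, k ≤ k' → j < (S k).1 → (S k').2 w j = (S k).2 w j := by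
    intro k k' w j hkk hj
    induction k', hkk using Nat.le_induction with
    | base => rfl
    | succ m hm ih =>
      rw [hcoh1 m w j (lt_of_lt_of_le hj (hsm.monotone hm)), ih]
  let X : (ℕ → Bool) → ℕ → P := fun w j => (S (j + 1)).2 w j
  have hX : ∀ k w j, j < (S k).1 → X w j = (S k).2 w j := by
    intro k w j hj
    have h1 : j < (S (j + 1)).1 := lt_of_lt_of_le (Nat.lt_succ_self j) (hge (j + 1))
    rcases le_total k (j + 1) with h | h
    · exact hcoh k (j + 1) w j h hj
    · exact (hcoh (j + 1) k w j h h1).symm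
  have hdep : ∀ k w w', (∀ i < k, w i = w' i) → ∀ j < (S k).1, (S k).2 w j = (S k).2 w' j := by
    intro k
    induction k with
    | zero => intro w w' _ j hj; exact absurd hj (Nat.not_lt_zero _)
    | succ k ih =>
      intro w w' hww j hj
      have hk : w k = w' k := hww k (Nat.lt_succ_self k)
      rw [he, he, hk]
      by_cases h1 : j < (S k).1
      · rw [if_pos h1, if_pos h1]
        exact ih w w' (fun i hi => hww i (Nat.lt_succ_of_lt hi)) j h1
      · rw [if_neg h1, if_neg h1]
  have hab' : ∀ k w w' j, j < (S k).1 → (S k).2 w j ≠ (S k).2 w' j →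
      ((S k).2 w j = a ∨ (S k).2 w j = b) ∧ ((S k).2 w' j = a ∨ (S k).2 w' j = b) := by
    intro k
    induction k with
    | zero => intro w w' j hj; exact absurd hj (Nat.not_lt_zero _)
    | succ k ih =>
      intro w w' j hj
      rw [he, he]
      split_ifs with h1 h2
      · exact ih w w' j h1
      all_goals simp
  have hXdec : ∀ w k, X w ∈ R k → DenseAbove (R k) (q k (S k)).1 (X w) := by
    intro w k hw
    have h1 := hq2 k (S k) (fun i : Fin k => w i)
    have h2 : Decides (R k) (q k (S k)).1 (X w) := by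
      refine h1.mono (le_refl _) ?_
      intro j hj
      by_cases hj' : j < (S k).1
      · rw [hX k w j hj']
        simp only [glue, if_pos hj']
        exact hdep k _ _ (fun i hi => (extB_restrict k w i hi).symm) j hj'
      · have h3 : j < (S (k + 1)).1 := by rw [hn]; exact Nat.lt_succ_of_lt hj
        rw [hX (k + 1) w j h3, he]
        simp only [glue, if_neg hj', if_pos hj]
    rcases h2 with h2 | h2
    · exact absurd (fun j _ => rfl) (h2 (X w) hw)
    · exact h2
  choose κ hκ using fun w => hR (X w)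
  have hnotinj : ¬ Function.Injective
      (fun w : ℕ → Bool => (⟨κ w, fun i : Fin (κ w) => w i⟩ : Σ k, (Fin k → Bool))) := by
    intro hinj
    have hc : Countable (ℕ → Bool) := hinj.countable
    have h1 : Cardinal.mk (ℕ → Bool) ≤ Cardinal.aleph0 := Cardinal.mk_le_aleph0
    have h2 : Cardinal.mk (ℕ → Bool) = Cardinal.continuum := by
      rw [← Cardinal.power_def, Cardinal.mk_bool, Cardinal.mk_nat, Cardinal.two_power_aleph0]
    rw [h2] at h1
    exact absurd Cardinal.aleph0_lt_continuum (not_lt.2 h1)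
  have hpair : ∃ w w' : ℕ → Bool, w ≠ w' ∧ κ w = κ w' ∧ ∀ i < κ w, w i = w' i := by
    unfold Function.Injective at hnotinj
    push Not at hnotinj
    obtain ⟨w, w', heq, hne⟩ := hnotinj
    refine ⟨w, w', hne, ?_, ?_⟩
    · exact congrArg Sigma.fst heq
    · intro i hi
      have h1 : κ w = κ w' := congrArg Sigma.fst heq
      have h2 := (Sigma.mk.inj_iff.1 heq).2
      have hi' : i < κ w' := h1 ▸ hi
      have key : ∀ (m m' : ℕ) (hm : m = m') (f : Fin m → Bool) (g : Fin m' → Bool),
          HEq f g → ∀ (h : i < m) (h' : i < m'), f ⟨i, h⟩ = g ⟨i, h'⟩ := by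
        intro m m' hm f g hfg h h'
        subst hm
        rw [eq_of_heq hfg]
      exact key _ _ h1 _ _ h2 hi hi'
  obtain ⟨w, w', hne, hκκ, hww⟩ := hpair
  refine ⟨κ w, (q (κ w) (S (κ w))).1, X w, X w', hXdec w _ (hκ w), hκ w, hκκ ▸ hκ w', ?_, ?_, ?_⟩
  · intro j hj
    by_cases hj' : j < (S (κ w)).1
    · rw [hX _ w j hj', hX _ w' j hj']
      exact (hdep _ _ _ hww j hj').symm
    · have h3 : j < (S (κ w + 1)).1 := by rw [hn]; exact Nat.lt_succ_of_lt hj
      rw [hX (κ w + 1) w j h3, hX (κ w + 1) w' j h3, he, he, if_neg hj', if_pos hj, if_neg hj',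
        if_pos hj]
  · obtain ⟨i, hi⟩ := Function.ne_iff.1 hne
    refine ⟨(q i (S i)).1, ?_⟩
    have h3 : (q i (S i)).1 < (S (i + 1)).1 := by rw [hn]; exact Nat.lt_succ_self _
    have h4 : ¬ (q i (S i)).1 < (S i).1 := not_lt.2 (hq1 i (S i))
    rw [hX (i + 1) w _ h3, hX (i + 1) w' _ h3, he, he, if_neg h4, if_neg (lt_irrefl _), if_neg h4,
      if_neg (lt_irrefl _)]
    cases h5 : w i <;> cases h6 : w' i
    · exact absurd (h5.trans h6.symm) hi
    · simpa using hab
    · simpa using hab.symm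
    · exact absurd (h5.trans h6.symm) hi
  · intro j hj
    have h1 : j < (S (j + 1)).1 := lt_of_lt_of_le (Nat.lt_succ_self j) (hge (j + 1))
    exact hab' (j + 1) w w' j h1 hj

end Fusion


/-! ### The point space -/

/-- validity of a set of events and a value -/
def Valid (E : Set (Bool × ℕ × ℕ)) (v : OmegaT) : Prop :=
  (∀ m, (∃ t, (false, m, t) ∈ E) ↔ v = OmegaT.nat (2 * m)) ∧
  (∀ m, (∃ t, (true, m, t) ∈ E) ↔ ∃ k, v = OmegaT.nat k ∧ 2 * m ≤ k) ∧
  (∀ k t, v = OmegaT.nat k → (true, 0, t) ∈ E → k < t)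

structure Pt where
  E : Set (Bool × ℕ × ℕ)
  v : OmegaT
  valid : Valid E v

def pbot0 : Pt := ⟨∅, OmegaT.bot0, by simp [Valid]⟩

def pbot1 : Pt := ⟨∅, OmegaT.bot1, by simp [Valid]⟩

lemma pbot0_ne_pbot1 : pbot0 ≠ pbot1 := by
  intro h
  have := congrArg Pt.v h
  simp [pbot0, pbot1] at this

def LEv (m : ℕ) (v : OmegaT) : Prop := v = OmegaT.bot0 ∨ ∃ j, v = OmegaT.nat j ∧ j ≤ 2 * m

def GEv (m : ℕ) (v : OmegaT) : Prop := v = OmegaT.bot1 ∨ ∃ j, v = OmegaT.nat j ∧ 2 * m ≤ j

def Close (B : ℕ) (p q : Pt) : Prop :=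
  (∀ κ m t, t < B → ((κ, m, t) ∈ p.E ↔ (κ, m, t) ∈ q.E)) ∧
  (∀ m, LEv m p.v → LEv m q.v) ∧ ∀ m < B, GEv m p.v → GEv m q.v

lemma Close.refl (B : ℕ) (p : Pt) : Close B p p := by
  simp [Close]

lemma Close.of_eq {B : ℕ} {p q : Pt} (h : p = q) : Close B p q := h ▸ Close.refl B p

def midPt (T : ℕ) : Pt := ⟨{(true, 0, T + 2)}, OmegaT.nat 1, by
  refine ⟨?_, ?_, ?_⟩
  · intro m
    simp
    omega
  · intro m
    simp
    omega
  · intro k t
    simp
    omega⟩

/-- start of the upward move: declare the value `0` at time `t` -/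
def zeroPt (T t : ℕ) : Pt := ⟨{(true, 0, T + 2), (false, 0, t)}, OmegaT.nat 0, by
  refine ⟨?_, ?_, ?_⟩
  · intro m
    simp [eq_comm]
  · intro m
    simp
  · intro k t
    simp
    omega⟩

def NCont (R : Set (ℕ → Pt)) (g : (ℕ → Pt) → ℝ) : Prop :=
  ∀ z ∈ R, ∀ ε > 0, ∃ B, ∀ z' ∈ R, (∀ j < B, Close B (z j) (z' j)) → |g z' - g z| < ε

lemma NCont.neg {R : Set (ℕ → Pt)} {g : (ℕ → Pt) → ℝ} (hg : NCont R g) :
    NCont R (fun z => - g z) := by
  intro z hz ε hε
  obtain ⟨B, hB⟩ := hg z hz ε hε
  refine ⟨B, fun z' hz' h => ?_⟩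
  have := hB z' hz' h
  rw [abs_sub_comm] at this
  have h2 : -g z' - -g z = g z - g z' := by ring
  rw [h2]
  exact this

lemma DenseAbove.modify {R : Set (ℕ → Pt)} {n₀ : ℕ} {s : ℕ → Pt} (hR : DenseAbove R n₀ s)
    (z : ℕ → Pt) (hz : ∀ j < n₀, z j = s j) (n : ℕ) (hn : n₀ ≤ n) (p : Pt) (L : ℕ) :
    ∃ z' ∈ R, (∀ j < L, j ≠ n → z' j = z j) ∧ (n < L → z' n = p) := by
  classical
  obtain ⟨z', hz', h⟩ := hR (Function.update z n p) (by
    intro j hj
    rw [Function.update_of_ne (ne_of_lt (lt_of_lt_of_le hj hn))]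
    exact hz j hj) L
  refine ⟨z', hz', ?_, ?_⟩
  · intro j hj hjn
    rw [h j hj, Function.update_of_ne hjn]
  · intro hnL
    rw [h n hnL, Function.update_self]

/-- raise the lower bound of `p` from `2i` to `2(i+1)` at time `t` -/
def raisePt (p : Pt) (i t : ℕ) (hv : p.v = OmegaT.nat (2 * i + 1))
    (hE : ∀ κ m' t', (κ, m', t') ∈ p.E → 2 * i + 3 < t') : Pt :=
  ⟨p.E ∪ {(true, i + 1, t)}, OmegaT.nat (2 * i + 3), by
    obtain ⟨E, v, h1, h2, h3⟩ := p
    simp only at hv hE
    subst hv
    refine ⟨?_, ?_, ?_⟩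
    · intro m
      constructor
      · rintro ⟨t', ht'⟩
        rcases ht' with ht' | ht'
        · have := (h1 m).1 ⟨t', ht'⟩
          simp at this
          omega
        · simp at ht'
      · intro h
        simp at h
        omega
    · intro m
      constructor
      · rintro ⟨t', ht'⟩
        rcases ht' with ht' | ht'
        · obtain ⟨k, hk, hmk⟩ := (h2 m).1 ⟨t', ht'⟩
          simp at hk
          exact ⟨2 * i + 3, rfl, by omega⟩
        · simp at ht'
          exact ⟨2 * i + 3, rfl, by omega⟩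
      · rintro ⟨k, hk, hmk⟩
        simp at hk
        by_cases hm : m = i + 1
        · exact ⟨t, Or.inr (by simp [hm])⟩
        · obtain ⟨t', ht'⟩ := (h2 m).2 ⟨2 * i + 1, rfl, by omega⟩
          exact ⟨t', Or.inl ht'⟩
    · intro k t' hk ht'
      simp at hk
      rcases ht' with ht' | ht'
      · have := hE _ _ _ ht'
        omega
      · simp at ht'⟩

/-- raise the lower bound of `p` to `2(i+1)` at time `t` and declare the value `2(i+1)`
at time `t'` -/
def declPt (p : Pt) (i t t' : ℕ) (hv : p.v = OmegaT.nat (2 * i + 1))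
    (hE : ∀ κ m' t', (κ, m', t') ∈ p.E → 2 * i + 3 < t') : Pt :=
  ⟨p.E ∪ {(true, i + 1, t), (false, i + 1, t')}, OmegaT.nat (2 * i + 2), by
    obtain ⟨E, v, h1, h2, h3⟩ := p
    simp only at hv hE
    subst hv
    refine ⟨?_, ?_, ?_⟩
    · intro m
      constructor
      · rintro ⟨t', ht'⟩
        rcases ht' with ht' | ht'
        · have := (h1 m).1 ⟨t', ht'⟩
          simp at this
          omega
        · simp at ht'
          simp
          omega
      · intro h
        simp at h
        have hm : m = i + 1 := by omega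
        exact ⟨t', Or.inr (by simp [hm])⟩
    · intro m
      constructor
      · rintro ⟨t', ht'⟩
        rcases ht' with ht' | ht'
        · obtain ⟨k, hk, hmk⟩ := (h2 m).1 ⟨t', ht'⟩
          simp at hk
          exact ⟨2 * i + 2, rfl, by omega⟩
        · simp at ht'
          exact ⟨2 * i + 2, rfl, by omega⟩
      · rintro ⟨k, hk, hmk⟩
        simp at hk
        by_cases hm : m = i + 1
        · exact ⟨t, Or.inr (by simp [hm])⟩
        · obtain ⟨t', ht'⟩ := (h2 m).2 ⟨2 * i + 1, rfl, by omega⟩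
          exact ⟨t', Or.inl ht'⟩
    · intro k t'' hk ht''
      simp at hk
      rcases ht'' with ht'' | ht''
      · have := hE _ _ _ ht''
        omega
      · simp at ht''⟩

lemma down (R : Set (ℕ → Pt)) (n₀ : ℕ) (s : ℕ → Pt) (hR : DenseAbove R n₀ s)
    (g : (ℕ → Pt) → ℝ) (hg : NCont R g) (n : ℕ) (hn : n₀ ≤ n) (K : ℕ) (hnK : n < K)
    (O : ℕ → Pt → Prop) (c : ℝ) (m T : ℕ) (hT : 2 * m + 1 < T)
    (hbase : ∀ z ∈ R, (∀ j < n₀, z j = s j) → (∀ j < K, j ≠ n → O j (z j)) →
      (z n).v = OmegaT.nat (2 * m + 1) → (∀ κ m' t, (κ, m', t) ∈ (z n).E → T ≤ t) → g z ≤ c) :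
    ∀ d i, i + d = m → ∀ z ∈ R, (∀ j < n₀, z j = s j) → (∀ j < K, j ≠ n → O j (z j)) →
      (z n).v = OmegaT.nat (2 * i + 1) → (∀ κ m' t, (κ, m', t) ∈ (z n).E → T ≤ t) →
      g z ≤ c := by
  intro d
  induction d with
  | zero =>
    intro i hi
    have : i = m := by omega
    subst this
    exact hbase
  | succ d ih =>
    intro i hi z hz hzs hzO hzv hzE
    by_contra hcon
    push Not at hcon
    set c' := (g z + c) / 2 with hc'
    have hcc' : c < c' := by rw [hc']; linarith
    have hc'g : c' < g z := by rw [hc']; linarith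
    obtain ⟨B₂, hB₂⟩ := hg z hz (g z - c') (by linarith)
    have hE3 : ∀ κ m' t', (κ, m', t') ∈ (z n).E → 2 * i + 3 < t' := by
      intro κ m' t' h
      have := hzE κ m' t' h
      omega
    set t := max T B₂ with ht
    have htT : T ≤ t := le_max_left _ _
    have htB : B₂ ≤ t := le_max_right _ _
    obtain ⟨z', hz', hz'1, hz'2⟩ := hR.modify z hzs n hn (raisePt (z n) i t hzv hE3)
      (max K B₂ + n + 1 + n₀)
    have hz'n : z' n = raisePt (z n) i t hzv hE3 := hz'2 (by omega)
    have hz's : ∀ j < n₀, z' j = s j := by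
      intro j hj
      rw [hz'1 j (by omega) (by omega)]
      exact hzs j hj
    have hgz' : g z' ≤ c := by
      refine ih (i + 1) (by omega) z' hz' hz's ?_ ?_ ?_
      · intro j hj hjn
        rw [hz'1 j (by have := le_max_left K B₂; omega) hjn]
        exact hzO j hj hjn
      · rw [hz'n]
        simp only [raisePt]
        congr 1
      · intro κ m' t' h
        rw [hz'n] at h
        simp only [raisePt] at h
        rcases h with h | h
        · exact hzE _ _ _ h
        · simp at h
          omega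
    obtain ⟨B₃, hB₃⟩ := hg z' hz' (c' - g z') (by linarith)
    set t' := max t B₃ with ht'
    have ht't : t ≤ t' := le_max_left _ _
    have ht'B : B₃ ≤ t' := le_max_right _ _
    obtain ⟨z'', hz'', hz''1, hz''2⟩ := hR.modify z' hz's n hn (declPt (z n) i t t' hzv hE3)
      (max K B₂ + B₃ + n + 1)
    have hz''n : z'' n = declPt (z n) i t t' hzv hE3 := hz''2 (by omega)
    have h1 : |g z'' - g z| < g z - c' := by
      refine hB₂ z'' hz'' ?_
      intro j hj
      by_cases hjn : j = n
      · subst hjn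
        rw [hz''n]
        refine ⟨?_, ?_, ?_⟩
        · intro κ m' t'' ht''
          simp only [declPt, mem_union, mem_insert_iff, mem_singleton_iff, Prod.mk.injEq]
          constructor
          · intro h; exact Or.inl h
          · rintro (h | h | h)
            · exact h
            · omega
            · omega
        · intro m' h
          rw [hzv] at h
          rcases h with h | ⟨k, hk, hkm⟩
          · simp at h
          · simp at hk
            exact Or.inr ⟨2 * i + 2, rfl, by omega⟩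
        · intro m' _ h
          rw [hzv] at h
          rcases h with h | ⟨k, hk, hkm⟩
          · simp at h
          · simp at hk
            exact Or.inr ⟨2 * i + 2, rfl, by omega⟩
      · have h2 := le_max_right K B₂
        apply Close.of_eq
        rw [hz''1 j (by omega) hjn, hz'1 j (by omega) hjn]
    have h2 : |g z'' - g z'| < c' - g z' := by
      refine hB₃ z'' hz'' ?_
      intro j hj
      by_cases hjn : j = n
      · subst hjn
        rw [hz''n, hz'n]
        refine ⟨?_, ?_, ?_⟩
        · intro κ m' t'' ht''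
          simp only [declPt, raisePt, mem_union, mem_insert_iff, mem_singleton_iff,
            Prod.mk.injEq]
          constructor
          · rintro (h | h)
            · exact Or.inl h
            · exact Or.inr (Or.inl h)
          · rintro (h | h | h)
            · exact Or.inl h
            · exact Or.inr h
            · omega
        · intro m' h
          rcases h with h | ⟨k, hk, hkm⟩
          · simp [raisePt] at h
          · simp [raisePt] at hk
            exact Or.inr ⟨2 * i + 2, rfl, by omega⟩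
        · intro m' _ h
          rcases h with h | ⟨k, hk, hkm⟩
          · simp [raisePt] at h
          · simp [raisePt] at hk
            exact Or.inr ⟨2 * i + 2, rfl, by omega⟩
      · apply Close.of_eq
        rw [hz''1 j (by omega) hjn]
    have h3 := (abs_lt.1 h1).1
    have h4 := (abs_lt.1 h2).2
    linarith

lemma claim (R : Set (ℕ → Pt)) (n₀ : ℕ) (s : ℕ → Pt) (hR : DenseAbove R n₀ s)
    (g : (ℕ → Pt) → ℝ) (hg : NCont R g) (x : ℕ → Pt) (hx : x ∈ R)
    (J : Set ℕ) (hJ : ∀ j ∈ J, n₀ ≤ j ∧ (x j = pbot0 ∨ x j = pbot1)) (c : ℝ) (hc : g x < c) :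
    ∃ N₀, ∀ T ≥ N₀, ∀ K ≥ N₀, ∀ z ∈ R, (∀ j < n₀, z j = s j) →
      (∀ j < K, (j ∈ J → z j = midPt T) ∧ (j ∉ J → z j = x j)) → g z ≤ c := by
  classical
  obtain ⟨B, hB⟩ := hg x hx (c - g x) (by linarith)
  refine ⟨2 * B + 2, ?_⟩
  intro T hT K hK
  have key : ∀ J' : Finset ℕ, (∀ j ∈ J', j ∈ J ∧ j < K) → ∀ z ∈ R, (∀ j < n₀, z j = s j) →
      (∀ j < K, (j ∈ J' → z j = midPt T) ∧ (j ∉ J' → Close B (x j) (z j))) → g z ≤ c := by
    intro J'
    induction J' using Finset.induction_on with
    | empty =>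
      intro _ z hz _ h
      have h1 := hB z hz (fun j hj => (h j (by omega)).2 (by simp))
      have h2 := (abs_lt.1 h1).2
      linarith
    | insert n J' hnJ' ih =>
      intro hJ' z hz hzs h
      have hnJ := (hJ' n (Finset.mem_insert_self _ _)).1
      have hnK := (hJ' n (Finset.mem_insert_self _ _)).2
      have hn₀ := (hJ n hnJ).1
      have ih' := ih (fun j hj => hJ' j (Finset.mem_insert_of_mem hj))
      have hzn : z n = midPt T := (h n hnK).1 (Finset.mem_insert_self _ _)
      have hO : ∀ j < K, j ≠ n → (j ∈ J' → z j = midPt T) ∧ (j ∉ J' → Close B (x j) (z j)) := by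
        intro j hj hjn
        refine ⟨fun h1 => (h j hj).1 (Finset.mem_insert_of_mem h1), fun h1 => (h j hj).2 ?_⟩
        intro h2
        rcases Finset.mem_insert.1 h2 with h2 | h2
        · exact hjn h2
        · exact h1 h2
      rcases (hJ n hnJ).2 with hx0 | hx1
      · by_contra hcon
        push Not at hcon
        obtain ⟨B₂, hB₂⟩ := hg z hz (g z - c) (by linarith)
        obtain ⟨z', hz', hz'1, hz'2⟩ := hR.modify z hzs n hn₀ (zeroPt T (max B B₂))
          (K + B₂ + n + 1 + n₀)
        have hz'n : z' n = zeroPt T (max B B₂) := hz'2 (by omega)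
        have hmB := le_max_left B B₂
        have hmB₂ := le_max_right B B₂
        have h1 : |g z' - g z| < g z - c := by
          refine hB₂ z' hz' ?_
          intro j hj
          by_cases hjn : j = n
          · subst hjn
            rw [hz'n, hzn]
            refine ⟨?_, ?_, ?_⟩
            · intro κ m' t'' ht''
              simp only [midPt, zeroPt, mem_insert_iff, mem_singleton_iff, Prod.mk.injEq]
              constructor
              · intro h; exact Or.inl h
              · rintro (h | h)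
                · exact h
                · omega
            · intro m' h
              rcases h with h | ⟨k, hk, hkm⟩
              · simp [midPt] at h
              · exact Or.inr ⟨0, rfl, by omega⟩
            · intro m' _ h
              rcases h with h | ⟨k, hk, hkm⟩
              · simp [midPt] at h
              · simp [midPt] at hk
                exact Or.inr ⟨0, rfl, by omega⟩
          · apply Close.of_eq
            rw [hz'1 j (by omega) hjn]
        have h2 : g z' ≤ c := by
          refine ih' z' hz' ?_ ?_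
          · intro j hj
            rw [hz'1 j (by omega) (by omega)]
            exact hzs j hj
          · intro j hj
            by_cases hjn : j = n
            · subst hjn
              refine ⟨fun h => absurd h hnJ', fun _ => ?_⟩
              rw [hz'n, hx0]
              refine ⟨?_, ?_, ?_⟩
              · intro κ m' t'' ht''
                simp only [pbot0, zeroPt, mem_insert_iff, mem_singleton_iff, Prod.mk.injEq,
                  mem_empty_iff_false, false_iff, not_or, not_and]
                omega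
              · intro m' _
                exact Or.inr ⟨0, rfl, by omega⟩
              · intro m' _ h
                rcases h with h | ⟨k, hk, hkm⟩
                · simp [pbot0] at h
                · simp [pbot0] at hk
            · rw [hz'1 j (by omega) hjn]
              exact hO j hj hjn
        have h3 := (abs_lt.1 h1).1
        linarith
      · have hdown := down R n₀ s hR g hg n hn₀ K hnK
          (fun j p => (j ∈ J' → p = midPt T) ∧ (j ∉ J' → Close B (x j) p)) c B (T + 2)
          (by omega) (by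
            intro z' hz' hz's hz'O hz'v hz'E
            refine ih' z' hz' hz's ?_
            intro j hj
            by_cases hjn : j = n
            · subst hjn
              refine ⟨fun h => absurd h hnJ', fun _ => ?_⟩
              rw [hx1]
              refine ⟨?_, ?_, ?_⟩
              · intro κ m' t'' ht''
                simp only [pbot1, mem_empty_iff_false, false_iff]
                intro h
                have := hz'E _ _ _ h
                omega
              · intro m' h
                rcases h with h | ⟨k, hk, hkm⟩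
                · simp [pbot1] at h
                · simp [pbot1] at hk
              · intro m' hm' _
                exact Or.inr ⟨2 * B + 1, hz'v, by omega⟩
            · exact hz'O j hj hjn)
        refine hdown B 0 (by omega) z hz hzs hO ?_ ?_
        · rw [hzn]; rfl
        · intro κ m' t'' h
          rw [hzn] at h
          simp [midPt] at h
          omega
  intro z hz hzs h
  refine key ((Finset.range K).filter (fun j => j ∈ J)) ?_ z hz hzs ?_
  · intro j hj
    rw [Finset.mem_filter, Finset.mem_range] at hj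
    exact ⟨hj.2, hj.1⟩
  · intro j hj
    rw [Finset.mem_filter, Finset.mem_range]
    refine ⟨fun h1 => (h j hj).1 h1.2, fun h1 => ?_⟩
    have h2 : j ∉ J := fun h3 => h1 ⟨hj, h3⟩
    exact Close.of_eq ((h j hj).2 h2).symm

theorem core (R : Set (ℕ → Pt)) (n₀ : ℕ) (x y : ℕ → Pt) (hR : DenseAbove R n₀ x)
    (g : (ℕ → Pt) → ℝ) (hg : NCont R g) (hx : x ∈ R) (hy : y ∈ R)
    (hxy : ∀ j < n₀, y j = x j)
    (hd : ∀ j, x j ≠ y j → (x j = pbot0 ∨ x j = pbot1) ∧ (y j = pbot0 ∨ y j = pbot1)) :
    g x = g y := by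
  classical
  have main : ∀ g : (ℕ → Pt) → ℝ, NCont R g → ¬ g x < g y := by
    intro g hg hlt
    obtain ⟨c, hc1, hc2⟩ := exists_between hlt
    obtain ⟨c₂, hc3, hc4⟩ := exists_between hc2
    have hJ : ∀ j, x j ≠ y j → n₀ ≤ j := by
      intro j hj
      by_contra h
      exact hj (hxy j (not_le.1 h)).symm
    obtain ⟨N₁, hN₁⟩ := claim R n₀ x hR g hg x hx {j | x j ≠ y j}
      (fun j hj => ⟨hJ j hj, (hd j hj).1⟩) c hc1
    obtain ⟨N₂, hN₂⟩ := claim R n₀ x hR (fun z => - g z) hg.neg y hy {j | x j ≠ y j}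
      (fun j hj => ⟨hJ j hj, (hd j hj).2⟩) (-c₂) (by linarith)
    set N := N₁ + N₂ + n₀ with hN
    obtain ⟨z, hz, hzj⟩ := hR (fun j => if x j ≠ y j then midPt N else x j) (by
      intro j hj
      have : ¬ x j ≠ y j := by
        rw [not_not]
        exact (hxy j hj).symm
      simp only [if_neg this]) N
    have hzx : ∀ j < n₀, z j = x j := by
      intro j hj
      rw [hzj j (by omega)]
      have : ¬ x j ≠ y j := by
        rw [not_not]
        exact (hxy j hj).symm
      simp only [if_neg this]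
    have h1 : g z ≤ c := by
      refine hN₁ N (by omega) N (by omega) z hz hzx ?_
      intro j hj
      rw [hzj j hj]
      refine ⟨fun h => ?_, fun h => ?_⟩
      · exact if_pos h
      · exact if_neg h
    have h2 : - g z ≤ - c₂ := by
      refine hN₂ N (by omega) N (by omega) z hz hzx ?_
      intro j hj
      rw [hzj j hj]
      refine ⟨fun h => ?_, fun h => ?_⟩
      · exact if_pos h
      · have h' : ¬ x j ≠ y j := h
        simp only [if_neg h']
        exact not_not.1 h'
    linarith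
  have h1 := main g hg
  have h2 := main (fun z => - g z) hg.neg
  simp only [neg_lt_neg_iff] at h2
  exact le_antisymm (not_lt.1 h2) (not_lt.1 h1)


/-! ### From points to degrees -/

/-- the set of codes of events of `x` -/
def EvSet (x : ℕ → Pt) : Set ℕ :=
  {q | (decide ((Nat.unpair q).1 % 2 = 1), (Nat.unpair ((Nat.unpair q).1 / 2)).2,
    (Nat.unpair q).2) ∈ (x (Nat.unpair ((Nat.unpair q).1 / 2)).1).E}

def Yset (x : ℕ → Pt) : Set ℕ := (EvSet x)ᶜ

def fval (x : ℕ → Pt) : ℕ → OmegaT := fun n => (x n).v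

def Zset (x : ℕ → Pt) : Set ℕ := join (join (Yset x) (Yset x)ᶜ) (HalfGraphPlus (fval x))

lemma mem_EvSet_even (x : ℕ → Pt) (n m t : ℕ) :
    Nat.pair (2 * Nat.pair n m) t ∈ EvSet x ↔ (false, m, t) ∈ (x n).E := by
  simp [EvSet]

lemma mem_EvSet_odd (x : ℕ → Pt) (n m t : ℕ) :
    Nat.pair (2 * Nat.pair n m + 1) t ∈ EvSet x ↔ (true, m, t) ∈ (x n).E := by
  have h1 : (2 * Nat.pair n m + 1) / 2 = Nat.pair n m := by omega
  have h2 : (2 * Nat.pair n m + 1) % 2 = 1 := by omega
  simp [EvSet, h1, h2]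

lemma mem_HalfGraph_iff (x : ℕ → Pt) (c : ℕ) :
    c ∈ HalfGraph (fval x) ↔ ∃ t, Nat.pair c t ∈ EvSet x := by
  obtain ⟨n, m, hnm⟩ : ∃ n m, c / 2 = Nat.pair n m :=
    ⟨(Nat.unpair (c / 2)).1, (Nat.unpair (c / 2)).2, (Nat.pair_unpair _).symm⟩
  rcases Nat.mod_two_eq_zero_or_one c with h | h
  · have hc : c = 2 * Nat.pair n m := by omega
    subst hc
    simp only [mem_EvSet_even]
    rw [(x n).valid.1 m]
    constructor
    · rintro (⟨n', m', h1, h2⟩ | ⟨n', m', h1, h2⟩)
      · have h3 : Nat.pair n m = Nat.pair n' m' := by omega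
        rw [Nat.pair_eq_pair] at h3
        rw [h3.1, h3.2]
        exact h2
      · omega
    · intro h1
      exact Or.inl ⟨n, m, rfl, h1⟩
  · have hc : c = 2 * Nat.pair n m + 1 := by omega
    subst hc
    simp only [mem_EvSet_odd]
    rw [(x n).valid.2.1 m]
    constructor
    · rintro (⟨n', m', h1, h2⟩ | ⟨n', m', h1, h2⟩)
      · omega
      · have h3 : Nat.pair n m = Nat.pair n' m' := by omega
        rw [Nat.pair_eq_pair] at h3
        rw [h3.1, h3.2]
        exact h2
    · intro h1
      exact Or.inr ⟨n, m, rfl, h1⟩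

/-- search for a witness in the complement of the oracle -/
noncomputable def searchFn (Y : Set ℕ) : ℕ →. ℕ := fun c =>
  Nat.rfind fun t => (fun m => decide (m = 0)) <$> charFn Y (Nat.pair c t)

lemma searchFn_rec (Y : Set ℕ) : Nat.RecursiveIn {charFn Y} (searchFn Y) :=
  Nat.RecursiveIn.rfind (Nat.RecursiveIn.oracle _ rfl)

lemma search_true (Y : Set ℕ) (c t : ℕ) :
    (true ∈ (fun m => decide (m = 0)) <$> charFn Y (Nat.pair c t)) ↔ Nat.pair c t ∉ Y := by
  classical
  by_cases h : Nat.pair c t ∈ Y <;> simp [charFn, h]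

lemma searchFn_dom (Y : Set ℕ) (c : ℕ) :
    (searchFn Y c).Dom ↔ ∃ t, Nat.pair c t ∉ Y := by
  constructor
  · intro h
    obtain ⟨t, ht, _⟩ := Nat.rfind_dom.1 h
    exact ⟨t, (search_true Y c t).1 ht⟩
  · rintro ⟨t, ht⟩
    refine Nat.rfind_dom.2 ⟨t, (search_true Y c t).2 ht, ?_⟩
    intro m _
    trivial

lemma halfCE (x : ℕ → Pt) : HalfCE (Yset x) (fval x) := by
  refine ⟨searchFn (Yset x), searchFn_rec _, fun c => ?_⟩
  rw [searchFn_dom, mem_HalfGraph_iff]
  simp [Yset]

lemma compDominated (x : ℕ → Pt) : CompDominated (Yset x) (fval x) := by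
  refine ⟨fun n => searchFn (Yset x) (2 * Nat.pair n 0 + 1), ?_, ?_⟩
  · have h1 : Nat.Primrec (fun n => 2 * Nat.pair n 0 + 1) := by
      rw [← Primrec.nat_iff]
      exact Primrec.nat_add.comp (Primrec.nat_mul.comp (Primrec.const 2)
        (Primrec₂.natPair.comp Primrec.id (Primrec.const 0))) (Primrec.const 1)
    have h2 := Nat.RecursiveIn.comp (searchFn_rec (Yset x))
      (Nat.Primrec.recursiveIn (O := {charFn (Yset x)}) h1)
    refine h2.of_eq ?_
    intro n
    exact Part.bind_some _ _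
  · intro n k hk
    have hex : ∃ t, (true, 0, t) ∈ (x n).E := ((x n).valid.2.1 0).2 ⟨k, hk, by omega⟩
    have hdom : (searchFn (Yset x) (2 * Nat.pair n 0 + 1)).Dom := by
      rw [searchFn_dom]
      obtain ⟨t, ht⟩ := hex
      refine ⟨t, ?_⟩
      simp only [Yset, mem_compl_iff, not_not]
      exact (mem_EvSet_odd x n 0 t).2 ht
    refine ⟨_, Part.get_mem hdom, ?_⟩
    have h1 := Part.get_mem hdom
    set b := (searchFn (Yset x) (2 * Nat.pair n 0 + 1)).get hdom with hb
    have h2 := Nat.rfind_spec h1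
    rw [search_true] at h2
    simp only [Yset, mem_compl_iff, not_not] at h2
    exact (x n).valid.2.2 k b hk ((mem_EvSet_odd x n 0 b).1 h2)

lemma Zset_close (z z' : ℕ → Pt) (B q : ℕ) (hq : q < B) (hqz : q ∈ Zset z)
    (h : ∀ j < B, Close B (z j) (z' j)) : q ∈ Zset z' := by
  have hEv : ∀ k < B, (k ∈ EvSet z ↔ k ∈ EvSet z') := by
    intro k hk
    have h1 : (Nat.unpair k).2 ≤ k := Nat.unpair_right_le k
    have h2 : (Nat.unpair k).1 ≤ k := Nat.unpair_left_le k
    have h3 : (Nat.unpair ((Nat.unpair k).1 / 2)).1 ≤ (Nat.unpair k).1 / 2 :=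
      Nat.unpair_left_le _
    have h4 : (Nat.unpair ((Nat.unpair k).1 / 2)).1 < B := by omega
    exact (h _ h4).1 _ _ _ (by omega)
  rcases hqz with ⟨n', hn', hq'⟩ | ⟨n', hn', hq'⟩
  · left
    refine ⟨n', ?_, hq'⟩
    rcases hn' with ⟨k, hk, hk'⟩ | ⟨k, hk, hk'⟩
    · left
      refine ⟨k, ?_, hk'⟩
      intro hcon
      exact hk ((hEv k (by omega)).2 hcon)
    · right
      refine ⟨k, ?_, hk'⟩
      intro hcon
      apply hk
      intro h5
      exact hcon ((hEv k (by omega)).1 h5)
  · right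
    refine ⟨n', ?_, hq'⟩
    rcases hn' with ⟨n, m, hk, hk'⟩ | ⟨n, m, hk, hk'⟩
    · left
      refine ⟨n, m, hk, ?_⟩
      have h1 : n ≤ Nat.pair n m := Nat.left_le_pair n m
      exact (h n (by omega)).2.1 m hk'
    · right
      refine ⟨n, m, hk, ?_⟩
      have h1 : n ≤ Nat.pair n m := Nat.left_le_pair n m
      have h2 : m ≤ Nat.pair n m := Nat.right_le_pair n m
      exact (h n (by omega)).2.2 m (by omega) hk'

lemma LE_of_Zset (x : ℕ → Pt) (n : ℕ) :
    2 * (2 * Nat.pair n 0) + 1 ∈ Zset x ↔ LEv 0 (x n).v := by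
  constructor
  · rintro (⟨n', _, hq⟩ | ⟨n', hn', hq⟩)
    · omega
    · rcases hn' with ⟨n'', m, hk, hk'⟩ | ⟨n'', m, hk, _⟩
      · have h3 : Nat.pair n 0 = Nat.pair n'' m := by omega
        rw [Nat.pair_eq_pair] at h3
        rw [h3.1, h3.2]
        exact hk'
      · omega
  · intro h
    exact Or.inr ⟨2 * Nat.pair n 0, Or.inl ⟨n, 0, rfl, h⟩, rfl⟩

lemma lt_of_mem_canonFin {q e : ℕ} (h : q ∈ canonFin e) : q < e := by
  have h1 : 2 ^ q ≤ e := Nat.ge_two_pow_of_testBit h
  exact lt_of_lt_of_le Nat.lt_two_pow_self h1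

lemma EnumRed.refl (A : Set ℕ) : EnumRed A A := by
  refine ⟨{k | (Nat.unpair k).2 = 2 ^ (Nat.unpair k).1}, ?_, ?_⟩
  · have h1 : PrimrecPred (fun k : ℕ => (Nat.unpair k).2 = 2 ^ (Nat.unpair k).1) := by
      have h2 : Primrec (fun k : ℕ => (Nat.unpair k).2) :=
        Primrec.snd.comp Primrec.unpair
      have h3 : Primrec (fun k : ℕ => 2 ^ (Nat.unpair k).1) := by
        have h4 : Primrec (fun n : ℕ => 2 ^ n) := by
          have h5 : Primrec (fun n : ℕ => Nat.rec (motive := fun _ => ℕ) 1
              (fun _ r => 2 * r) n) :=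
            Primrec.nat_rec₁ 1 (Primrec.nat_mul.comp (Primrec.const 2) Primrec.snd)
          refine h5.of_eq ?_
          intro n
          induction n with
          | zero => rfl
          | succ n ih =>
            rw [pow_succ, mul_comm]
            show 2 * _ = _
            rw [ih]
        exact h4.comp (Primrec.fst.comp Primrec.unpair)
      exact Primrec.eq.comp h2 h3
    exact h1.computablePred.to_re
  · intro n
    constructor
    · intro hn
      refine ⟨2 ^ n, by simp, ?_⟩
      intro q hq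
      have : q = n := by
        simpa [canonFin, Nat.testBit_two_pow, eq_comm] using hq
      rw [this]
      exact hn
    · rintro ⟨e, he, hA⟩
      have he : (Nat.unpair (Nat.pair n e)).2 = 2 ^ (Nat.unpair (Nat.pair n e)).1 := he
      rw [Nat.unpair_pair] at he
      simp only at he
      apply hA
      rw [he]
      simp [canonFin]

lemma exists_code_of_re {Φ : Set ℕ} (h : REPred (fun k : ℕ => k ∈ Φ)) :
    ∃ c : Nat.Partrec.Code, ∀ k, k ∈ Φ ↔ (c.eval k).Dom := by
  have h1 : Partrec (fun k : ℕ => (Part.assert (k ∈ Φ) fun _ => Part.some ()).map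
      (fun _ => (0 : ℕ))) :=
    Partrec.map h (Computable.const 0).to₂
  obtain ⟨c, hc⟩ := Nat.Partrec.Code.exists_code.1 (Partrec.nat_iff.1 h1)
  refine ⟨c, fun k => ?_⟩
  rw [hc]
  simp [Part.assert]

lemma exists_dist_aux {X : Type*} (t t' : TopologicalSpace X) (hle : t ≤ t')
    (hm : @MetrizableSpace X t') :
    ∃ d : X → X → ℝ, (∀ x y, d x y = 0 ↔ x = y) ∧
      ∀ x₀ y, ∀ ε > 0, ∃ U : Set X, IsOpen[t] U ∧ y ∈ U ∧ ∀ y' ∈ U, |d y' x₀ - d y x₀| < ε := by
  let _ := t'
  let _ := metrizableSpaceMetric X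
  refine ⟨fun x y => dist x y, fun x y => dist_eq_zero, ?_⟩
  intro x₀ y ε hε
  refine ⟨{y' | |dist y' x₀ - dist y x₀| < ε}, ?_, ?_, ?_⟩
  · apply hle
    have hcont : Continuous (fun y' : X => |dist y' x₀ - dist y x₀|) := by fun_prop
    exact isOpen_lt hcont continuous_const
  · simpa using hε
  · intro y' hy'
    exact hy'

lemma exists_dist {X : Type*} [TopologicalSpace X] (hX : Submetrizable X) :
    ∃ d : X → X → ℝ, (∀ x y, d x y = 0 ↔ x = y) ∧
      ∀ x₀ y, ∀ ε > 0, ∃ U : Set X, IsOpen U ∧ y ∈ U ∧ ∀ y' ∈ U, |d y' x₀ - d y x₀| < ε := by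
  obtain ⟨t', hle, hm⟩ := hX
  exact exists_dist_aux _ t' hle hm

/-- For every represented submetrizable space there is a Roy halfgraph-above `e`-degree which is
not a degree of a point of the space. -/
theorem exists_roy_not_point {X : Type*} [TopologicalSpace X] [T0Space X] (β : ℕ → Set X)
    (hβ : IsTopologicalBasis (range β)) (hX : Submetrizable X) :
    ∃ d : Set (Set ℕ), RoyHalfgraphAbove d ∧ ¬ IsPointDegree β d := by
  classical
  by_contra hcon
  push Not at hcon
  have hall : ∀ x : ℕ → Pt, ∃ y : X, EnumRed (Zset x) (nbhdFilter β y) ∧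
      EnumRed (nbhdFilter β y) (Zset x) := by
    intro x
    have h1 : Zset x ∈ eDeg (Zset x) := ⟨EnumRed.refl _, EnumRed.refl _⟩
    obtain ⟨y, hy⟩ := hcon (eDeg (Zset x)) ⟨⟨_, rfl⟩, Yset x, fval x, halfCE x,
      compDominated x, h1⟩
    rw [hy] at h1
    exact ⟨y, h1.1, h1.2⟩
  let Code2 := Nat.Partrec.Code × Nat.Partrec.Code
  let Spec : Code2 → (ℕ → Pt) → X → Prop := fun c x y =>
    (∀ n, n ∈ nbhdFilter β y ↔ ∃ e, (c.1.eval (Nat.pair n e)).Dom ∧ canonFin e ⊆ Zset x) ∧
    (∀ n, n ∈ Zset x ↔ ∃ e, (c.2.eval (Nat.pair n e)).Dom ∧ canonFin e ⊆ nbhdFilter β y)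
  have hspec : ∀ x : ℕ → Pt, ∃ c : Code2, ∃ y : X, Spec c x y := by
    intro x
    obtain ⟨y, ⟨Φ, hΦ, hΦ'⟩, ⟨Ψ, hΨ, hΨ'⟩⟩ := hall x
    obtain ⟨c₁, hc₁⟩ := exists_code_of_re hΦ
    obtain ⟨c₂, hc₂⟩ := exists_code_of_re hΨ
    refine ⟨(c₂, c₁), y, ?_, ?_⟩
    · intro n
      simp only [hΨ' n, hc₂]
    · intro n
      simp only [hΦ' n, hc₁]
  obtain ⟨enum, henum⟩ := exists_surjective_nat Code2
  obtain ⟨i, n₀, x, y, hdense, hx, hy, hxy, ⟨j, hj⟩, hd⟩ := fusion pbot0 pbot1 pbot0_ne_pbot1
    (fun i => {x | ∃ y : X, Spec (enum i) x y}) (by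
      intro x
      obtain ⟨c, hc⟩ := hspec x
      obtain ⟨i, hi⟩ := henum c
      exact ⟨i, by rw [← hi] at hc; exact hc⟩)
  set R : Set (ℕ → Pt) := {x | ∃ y : X, Spec (enum i) x y} with hR
  obtain ⟨y₀, hy₀⟩ := hx
  have hh : ∀ z : ℕ → Pt, ∃ w : X, z ∈ R → Spec (enum i) z w := by
    intro z
    by_cases hz : z ∈ R
    · obtain ⟨w, hw⟩ := hz
      exact ⟨w, fun _ => hw⟩
    · exact ⟨y₀, fun h => absurd h hz⟩
  choose h hh using hh
  obtain ⟨d, hd0, hdc⟩ := exists_dist hX
  have hx' : x ∈ R := ⟨y₀, hy₀⟩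
  have hcont : NCont R (fun z => d (h z) (h x)) := by
    intro z hz ε hε
    obtain ⟨U, hU, hzU, hU'⟩ := hdc (h x) (h z) ε hε
    obtain ⟨V, ⟨e, rfl⟩, hzV, hVU⟩ := hβ.exists_subset_of_mem_open hzU hU
    have h1 : e ∈ nbhdFilter β (h z) := hzV
    rw [(hh z hz).1 e] at h1
    obtain ⟨e', he', he''⟩ := h1
    refine ⟨e', ?_⟩
    intro z' hz' hclose
    apply hU'
    apply hVU
    have h2 : e ∈ nbhdFilter β (h z') := by
      rw [(hh z' hz').1 e]
      refine ⟨e', he', ?_⟩
      intro q hq
      exact Zset_close z z' e' q (lt_of_mem_canonFin hq) (he'' hq) hclose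
    exact h2
  have hfin := core R n₀ x y hdense _ hcont hx' hy hxy hd
  have h1 : d (h x) (h x) = 0 := (hd0 _ _).2 rfl
  have h2 : h y = h x := by
    apply (hd0 _ _).1
    rw [← hfin, h1]
  have hZ : Zset x = Zset y := by
    ext n
    rw [(hh x hx').2 n, (hh y hy).2 n, h2]
  have h3 : LEv 0 (x j).v ↔ LEv 0 (y j).v := by
    rw [← LE_of_Zset, ← LE_of_Zset, hZ]
  have hb0 : LEv 0 pbot0.v := Or.inl rfl
  have hb1 : ¬ LEv 0 pbot1.v := by
    rintro (h | ⟨k, hk, _⟩)
    · simp [pbot1] at h
    · simp [pbot1] at hk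
  obtain ⟨hxj, hyj⟩ := hd j hj
  rcases hxj with hxj | hxj <;> rcases hyj with hyj | hyj
  · exact hj (hxj.trans hyj.symm)
  · rw [hxj, hyj] at h3
    exact hb1 (h3.1 hb0)
  · rw [hxj, hyj] at h3
    exact hb1 (h3.2 hb0)
  · exact hj (hxj.trans hyj.symm)

end Pool.Agent.Helper65.Roy
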